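import Pool.Agent.X224.SG.Ext

/-!
# Hindman's theorem for extensions of colourings with arithmetical recurrent limits

Let `c` be a colouring, and let `g` be a recurrent limit of a coarser colouring `f ∘ c`; assume
that `g` is arithmetical in `c`, for instance because it is not in some finite Cantor-Bendixson
derivative of the set of limits of `f ∘ c`.  We show that `c` has arithmetical solutions if the
differences between `c` and `f ∘ c` are described by finitely many sets without shattered
translates, where only the numbers which return to `g` are considered.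
-/

set_option autoImplicit false

namespace Pool.Agent.Results.MP_69fea5_lc.ArithmeticalExtensions

open Pool.Agent.Y579.HM Pool.Agent.Y545.HM.St

/-- The limits of the colouring `b` along finite sums: for every `m` there are `m` positive
multiples of `m!` such that `b (x + s) = g x` for all `x < m` and all sums `s` of one or more of
them. -/
def Limits {k : ℕ} (b : ℕ → Fin k) : Set (ℕ → Fin k) :=
  {g | ∀ m : ℕ, ∃ Y : List ℕ, Y.length = m ∧ (∀ y ∈ Y, 0 < y ∧ m.factorial ∣ y) ∧
    ∀ l : List ℕ, l.Sublist Y → l ≠ [] → ∀ x < m, b (x + l.sum) = g x}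

/-- The number `u` returns to `g` up to `m`: it is a positive multiple of `m!` and
`b (x + u) = g x = g (x + u)` for all `x < m`. -/
def Returns {k : ℕ} (b g : ℕ → Fin k) (m u : ℕ) : Prop :=
  0 < u ∧ m.factorial ∣ u ∧ ∀ x < m, b (x + u) = g x ∧ g (x + u) = g x

/-- The property `p` holds for most sums of `m` numbers: for all `y₁` returning to `g` up to a
certain number, all `y₂` returning to `g` up to a number depending on `y₁`, and so on,
`p (y₁ + ... + yₘ)` holds. -/
def Most {k : ℕ} (b g : ℕ → Fin k) : ℕ → (ℕ → Prop) → Prop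
  | 0, p => p 0
  | m + 1, p => ∃ M : ℕ, ∀ y, Returns b g M y → Most b g m fun z => p (y + z)

/-- The set `A` has no shattered translates relative to `b` and `g`: for all `x` returning to `g`
up to a certain number, and most sums `y` of `m` numbers, one of the four patterns of membership of
`y + u` and `x + y + u` in `A` does not occur for those `u` which return to `g` up to some number
depending on `x` and `y`. -/
def Unshattered {k : ℕ} (b g : ℕ → Fin k) (m : ℕ) (A : Set ℕ) : Prop :=
  ∃ N : ℕ, ∀ x, Returns b g N x → Most b g m fun y => ∃ P Q : Bool, ∃ n : ℕ,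
    ∀ u, Returns b g n u → ¬ ((y + u ∈ A ↔ P = true) ∧ (x + y + u ∈ A ↔ Q = true))

/-- The graph of `c`, as a set of codes of pairs of natural numbers. -/
def graph {k : ℕ} (c : ℕ → Fin k) : Set ℕ := {n | (c n.unpair.1 : ℕ) = n.unpair.2}

/-- The colouring `c` is an extension by `r` sets of a colouring `f ∘ c` with a recurrent limit `g`
which is definable from `c` with `n` nested number quantifiers: any two colours with the same image
under `f` are distinguished by one of `r` sets of colours, and the sets of numbers with colours in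
them have no shattered translates relative to `f ∘ c` and `g`. -/
def Extension {k : ℕ} (c : ℕ → Fin k) (n m r : ℕ) : Prop :=
  ∃ (k' : ℕ) (f : Fin k → Fin k') (g : ℕ → Fin k') (S : Fin r → Set (Fin k)),
    (∀ j, ∃ u, Returns (fun x => f (c x)) g j u) ∧
    (LevN (graph c) n fun x => x ∈ graph g) ∧
    (∀ i j, i ≠ j → f i = f j → ∃ l, ¬ (i ∈ S l ↔ j ∈ S l)) ∧
    ∀ l, Unshattered (fun x => f (c x)) g m {x | c x ∈ S l}

theorem most_iff {k : ℕ} {b g : ℕ → Fin k} {m : ℕ} {p : ℕ → Prop} :
    Most b g m p ↔ Pool.Agent.X224.SG.Mst b g m p := by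
  induction m generalizing p with
  | zero => exact Iff.rfl
  | succ m ih =>
    constructor
    · rintro ⟨M, hM⟩
      exact ⟨M, fun y hy => ih.1 (hM y hy)⟩
    · rintro ⟨M, hM⟩
      exact ⟨M, fun y hy => ih.2 (hM y hy)⟩

theorem unshattered_iff {k : ℕ} {b g : ℕ → Fin k} {m : ℕ} {A : Set ℕ} :
    Unshattered b g m A ↔ Pool.Agent.X224.SG.Uns3 b g m A := by
  constructor
  · rintro ⟨N, hN⟩
    exact ⟨N, fun x hx => most_iff.1 (hN x hx)⟩
  · rintro ⟨N, hN⟩
    exact ⟨N, fun x hx => most_iff.2 (hN x hx)⟩

theorem extension_iff {k : ℕ} {c : ℕ → Fin k} {n m r : ℕ} :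
    Extension c n m r ↔ Pool.Agent.X224.SG.Xt c n m r := by
  constructor
  · rintro ⟨k', f, g, S, h1, h2, h3, h4⟩
    exact ⟨k', f, g, S, h1, h2, h3, fun l => unshattered_iff.1 (h4 l)⟩
  · rintro ⟨k', f, g, S, h1, h2, h3, h4⟩
    exact ⟨k', f, g, S, h1, h2, h3, fun l => unshattered_iff.2 (h4 l)⟩

/-- **Extensions of colourings with arithmetical recurrent limits.** -/
theorem result :
    -- arithmetical solutions
    (∀ (k n m r : ℕ) (c : ℕ → Fin k), Extension c n m r →
      ∃ Z X : Set ℕ, LevN (graph c) (n + 2 ^ (3 + (m + 1) * r)) (· ∈ Z) ∧ Solution c X ∧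
        Computes Z (char X)) ∧
    -- recurrent limits of finite rank are arithmetical
    (∀ (k k' d : ℕ) (c : ℕ → Fin k) (f : Fin k → Fin k') (g : ℕ → Fin k'),
      (∀ j, ∃ u, Returns (fun x => f (c x)) g j u) →
      g ∉ derivedSet^[d] (Limits fun x => f (c x)) →
      LevN (graph c) (3 * d + 1) fun x => x ∈ graph g) ∧
    -- sets without shattered translates relative to the colouring with one colour have no
    -- shattered translates relative to any colouring
    (∀ (k m : ℕ) (b g : ℕ → Fin k) (A : Set ℕ),
      Unshattered (k := 1) (fun _ => 0) (fun _ => 0) m A → Unshattered b g m A) ∧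
    -- the strength over `ω`-models is exactly that of arithmetical comprehension
    ∀ I : Set (Set ℕ), Ideal I → (HT I (fun _ c => ∃ n m r, Extension c n m r) ↔ ACA I) := by
  refine ⟨?_, ?_, ?_, ?_⟩
  · intro k n m r c h
    obtain ⟨Z, X, h1, h2, h3⟩ := Pool.Agent.X224.SG.upper3 (extension_iff.1 h)
    exact ⟨Z, X, h1, h2, computes_set.2 h3⟩
  · intro k k' d c f g h1 h2
    exact Pool.Agent.X224.SG.rank_lev f h1 h2
  · intro k m b g A h
    exact unshattered_iff.2 (Pool.Agent.X224.SG.uns3_mono (unshattered_iff.1 h))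
  · intro I hI
    have hI' := ideal_iff.1 hI
    constructor
    · intro h
      rw [aca_iff, ← (Pool.Agent.Y545.HM.class_jump hI').2]
      exact (ht_iff.1 h).mono fun k c ⟨W, hW⟩ => ⟨3 * 1 + 1, 0, 0, extension_iff.2
        (Pool.Agent.X224.SG.xt_of_rank (Pool.Agent.X224.HR.rank_of_ix hW))⟩
    · intro hJ k c ⟨A, hA, hc⟩ ⟨n, m, r, hr⟩
      obtain ⟨Z, X, h3, h4, h5⟩ := Pool.Agent.X224.SG.upper3 (extension_iff.1 hr)
      have h6 : Pool.Agent.X224.HR.graph c ∈ I :=
        hI'.2.1 A hA _ (Pool.Agent.X224.HR.graph_dec (computes_col.1 hc))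
      have h7 := Pool.Agent.X224.HR.lev_ideal hI' (aca_iff.1 hJ) h6 h3
      exact ⟨X, hI'.2.1 Z h7 X h5, h4⟩

end Pool.Agent.Results.MP_69fea5_lc.ArithmeticalExtensions
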