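import Pool.Agent.X224.HR.Rec

/-!
# Hindman's theorem for colourings with a recurrent limit of finite Cantor-Bendixson rank

Hindman's theorem is proved by limits `g x = lim (y → U) c (x + y)` along an idempotent ultrafilter
`U`.  All these functions are recurrent and belong to the closed set `Limits c` of those functions
which, at every finite stage, are limits of the colouring along finite sums.  A point of `Limits c`
which is not in the `r`-th Cantor-Bendixson derivative is arithmetical in `c`, hence colourings for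
which some recurrent limit has finite rank, in particular all colourings for which `Limits c` has
finite Cantor-Bendixson rank, have arithmetical solutions.
-/

set_option autoImplicit false

namespace Pool.Agent.Results.MP_69fea5_lc.FiniteRank

open Pool.Agent.Y579.HM Pool.Agent.Y545.HM.St Pool.Agent.Y579.ST

/-- The limits of the colouring `c` along finite sums: for every `m` there are `m` positive
multiples of `m!` such that `c (x + s) = g x` for all `x < m` and all sums `s` of one or more of
them. -/
def Limits {k : ℕ} (c : ℕ → Fin k) : Set (ℕ → Fin k) :=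
  {g | ∀ m : ℕ, ∃ Y : List ℕ, Y.length = m ∧ (∀ y ∈ Y, 0 < y ∧ m.factorial ∣ y) ∧
    ∀ l : List ℕ, l.Sublist Y → l ≠ [] → ∀ x < m, c (x + l.sum) = g x}

/-- Recurrent limits of the colouring `c`: for every `m` there is a positive multiple `y` of `m!`
such that `c (x + y) = g x` and `g (x + y) = g x` for all `x < m`. -/
def Recurrent {k : ℕ} (c g : ℕ → Fin k) : Prop :=
  ∀ m : ℕ, ∃ y : ℕ, 0 < y ∧ m.factorial ∣ y ∧ ∀ x < m, c (x + y) = g x ∧ g (x + y) = g x

/-- The `r`-th Cantor-Bendixson derivative of the set of limits is empty (in the product topology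
of discrete spaces). -/
def Rank {k : ℕ} (c : ℕ → Fin k) (r : ℕ) : Prop := derivedSet^[r] (Limits c) = ∅

/-- The graph of `c`, as a set of codes of pairs of natural numbers. -/
def graph {k : ℕ} (c : ℕ → Fin k) : Set ℕ := {n | (c n.unpair.1 : ℕ) = n.unpair.2}

/-- **Colourings with a recurrent limit of finite Cantor-Bendixson rank.** -/
theorem result :
    -- every colouring has a recurrent limit, and recurrent limits are limits along finite sums
    (∀ (k : ℕ) (c : ℕ → Fin k), (∃ g, Recurrent c g) ∧ ∀ g, Recurrent c g → g ∈ Limits c) ∧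
    -- recurrent limits of finite rank give arithmetical solutions
    (∀ (k r : ℕ) (c g : ℕ → Fin k), Recurrent c g → g ∉ derivedSet^[r] (Limits c) →
      ∃ Z X : Set ℕ, LevN (graph c) (3 * r + 1) (· ∈ Z) ∧ Solution c X ∧ Computes Z (char X)) ∧
    -- finitely many eventual classes, or finite Littlestone dimension, imply finite rank
    (∀ (k W : ℕ) (c : ℕ → Fin k), (∀ m, Eventual c m W) → Rank c 1) ∧
    (∀ (k d : ℕ) (c : ℕ → Fin k), ¬ Lit c d (fun _ => True) → Rank c d) ∧
    -- a computable colouring of rank two with infinitely many eventual classes and infinite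
    -- Littlestone dimension
    (∃ c : ℕ → Fin 2, Computable c ∧ Rank c 2 ∧ ¬ Rank c 1 ∧ (¬ ∃ W, ∀ m, Eventual c m W) ∧
      ∀ d, Lit c d fun _ => True) ∧
    -- the strength over `ω`-models is exactly that of arithmetical comprehension
    ∀ I : Set (Set ℕ), Ideal I →
      (HT I (fun _ c => Rank c 1) ↔ ACA I) ∧
      (HT I (fun _ c => ∃ r, Rank c r) ↔ ACA I) ∧
      (HT I (fun _ c => ∃ r g, Recurrent c g ∧ g ∉ derivedSet^[r] (Limits c)) ↔ ACA I) := by
  refine ⟨fun k c => ⟨Pool.Agent.X224.HR.exists_rcr c, fun g => Pool.Agent.X224.HR.rcr_limit⟩,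
    ?_, ?_, ?_, ?_, ?_⟩
  · intro k r c g h1 h2
    obtain ⟨Z, X, h3, h4, h5⟩ := Pool.Agent.X224.HR.upper_rcr h1 h2
    exact ⟨Z, X, h3, h4, computes_set.2 h5⟩
  · intro k W c h
    exact Pool.Agent.X224.HR.rank_of_ix (Pool.Agent.Y545.HM.ix_of_evl h)
  · intro k d c h
    exact Pool.Agent.X224.HR.rank_of_lit h
  · refine ⟨Pool.Agent.X224.HR.cc, Pool.Agent.X224.HR.computable_cc,
      Pool.Agent.X224.HR.rank_two, Pool.Agent.X224.HR.not_rank_one, ?_,
      Pool.Agent.X224.HR.lit_all⟩
    rintro ⟨W, hW⟩
    exact Pool.Agent.X224.HR.infinite_limits (Pool.Agent.X224.HR.finite_of_ix (Pool.Agent.Y545.HM.ix_of_evl hW))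
  · intro I hI
    have hI' := ideal_iff.1 hI
    have up : ACA I → HT I (fun _ c => ∃ r g, Recurrent c g ∧ g ∉ derivedSet^[r] (Limits c)) := by
      intro hJ k c ⟨A, hA, hc⟩ ⟨r, g, h1, h2⟩
      obtain ⟨Z, X, h3, h4, h5⟩ := Pool.Agent.X224.HR.upper_rcr h1 h2
      have h6 : Pool.Agent.X224.HR.graph c ∈ I :=
        hI'.2.1 A hA _ (Pool.Agent.X224.HR.graph_dec (computes_col.1 hc))
      have h7 := Pool.Agent.X224.HR.lev_ideal hI' (aca_iff.1 hJ) h6 h3
      exact ⟨X, hI'.2.1 Z h7 X h5, h4⟩
    have mid : HT I (fun _ c => ∃ r g, Recurrent c g ∧ g ∉ derivedSet^[r] (Limits c)) →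
        HT I (fun _ c => ∃ r, Rank c r) := by
      intro h k c hc ⟨r, hr⟩
      obtain ⟨g, hg⟩ := Pool.Agent.X224.HR.exists_rcr c
      refine h k c hc ⟨r, g, hg, ?_⟩
      rw [show derivedSet^[r] (Limits c) = ∅ from hr]
      exact Set.notMem_empty g
    have low : HT I (fun _ c => ∃ r, Rank c r) → HT I (fun _ c => Rank c 1) :=
      fun h k c hc hr => h k c hc ⟨1, hr⟩
    have down : HT I (fun _ c => Rank c 1) → ACA I := by
      intro h
      rw [aca_iff, ← (Pool.Agent.Y545.HM.class_jump hI').2]
      exact (ht_iff.1 h).mono fun k c ⟨W, hW⟩ => Pool.Agent.X224.HR.rank_of_ix hW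
    exact ⟨⟨down, fun h => low (mid (up h))⟩, ⟨fun h => down (low h), fun h => mid (up h)⟩,
      ⟨fun h => down (low (mid h)), up⟩⟩

end Pool.Agent.Results.MP_69fea5_lc.FiniteRank
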