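import Pool.Agent.X224.SG.Main

/-!
# Hindman's theorem for colourings without shattered pairs

A set `A` of natural numbers has no shattered pairs if for every sufficiently divisible `x > 0` one
of the four patterns of `(u ∈ A, x + u ∈ A)` does not occur for sufficiently divisible `u > 0`.
The sets which were used to show that Hindman's theorem implies arithmetical comprehension have
this property.  We show that Hindman's theorem for two-colourings without shattered pairs has
solutions computable in sets with two number quantifiers over the colouring, that the combinations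
of finitely many such colourings have arithmetical solutions, and that the strength of both
theorems is exactly that of arithmetical comprehension.
-/

set_option autoImplicit false

namespace Pool.Agent.Results.MP_69fea5_lc.UnshatteredPairs

open Pool.Agent.Y579.HM Pool.Agent.Y545.HM.St

/-- The set `A` has no shattered pairs: if `x > 0` is sufficiently divisible, then one of the four
patterns of membership of `u` and of `x + u` in `A` does not occur for sufficiently divisible
`u > 0`. -/
def Unshattered (A : Set ℕ) : Prop :=
  ∃ N : ℕ, ∀ x, 0 < x → N.factorial ∣ x → ∃ P Q : Bool, ∃ m : ℕ,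
    ∀ u, 0 < u → m.factorial ∣ u → ¬ ((u ∈ A ↔ P = true) ∧ (x + u ∈ A ↔ Q = true))

/-- The colouring `c` is a combination of `r` two-colourings without shattered pairs: there are `r`
sets of colours such that the sets of numbers with colours in them have no shattered pairs, and
such that any two colours are distinguished by one of the `r` sets. -/
def Combination {k : ℕ} (c : ℕ → Fin k) (r : ℕ) : Prop :=
  ∃ S : Fin r → Set (Fin k), (∀ i j, i ≠ j → ∃ l, ¬ (i ∈ S l ↔ j ∈ S l)) ∧
    ∀ l, Unshattered {n | c n ∈ S l}

/-- The graph of `c`, as a set of codes of pairs of natural numbers. -/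
def graph {k : ℕ} (c : ℕ → Fin k) : Set ℕ := {n | (c n.unpair.1 : ℕ) = n.unpair.2}

/-- **Colourings without shattered pairs.** -/
theorem result :
    -- two-colourings without shattered pairs: two quantifiers
    (∀ (k : ℕ) (c : ℕ → Fin k), Combination c 1 →
      ∃ Z X : Set ℕ, LevN (graph c) 2 (· ∈ Z) ∧ Solution c X ∧ Computes Z (char X)) ∧
    -- combinations of finitely many of them: arithmetical solutions
    (∀ (k r : ℕ) (c : ℕ → Fin k), Combination c r →
      ∃ Z X : Set ℕ, LevN (graph c) (2 ^ (r + 2)) (· ∈ Z) ∧ Solution c X ∧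
        Computes Z (char X)) ∧
    -- every set enumerable in `A` is coded by such a colouring computable in `A`
    (∀ A S : Set ℕ, Enum A S → ∃ c : ℕ → Fin 2, Computes A (fun n => Part.some (c n).val) ∧
      Combination c 1 ∧ ∀ Y, Solution c Y → Computes (Join A Y) (char S)) ∧
    -- the strength over `ω`-models is exactly that of arithmetical comprehension
    ∀ I : Set (Set ℕ), Ideal I →
      (HT I (fun _ c => Combination c 1) ↔ ACA I) ∧
      (HT I (fun _ c => ∃ r, Combination c r) ↔ ACA I) := by
  refine ⟨?_, ?_, ?_, ?_⟩
  · intro k c h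
    obtain ⟨Z, X, h1, h2, h3⟩ := Pool.Agent.X224.SG.upper_one h
    exact ⟨Z, X, h1, h2, computes_set.2 h3⟩
  · intro k r c h
    obtain ⟨Z, X, h1, h2, h3⟩ := Pool.Agent.X224.SG.upper_many h
    exact ⟨Z, X, h1, h2, computes_set.2 h3⟩
  · intro A S hS
    obtain ⟨c, h1, h2, h3⟩ := Pool.Agent.X224.SG.lower (enum_iff.1 hS)
    refine ⟨c, computes_col.2 h1, h2, fun Y hY => computes_set.2 ?_⟩
    exact h3 (Join A Y) Y Pool.Agent.Y545.HM.dec_left Pool.Agent.Y545.HM.dec_right hY
  · intro I hI
    have hI' := ideal_iff.1 hI
    have up : ACA I → HT I (fun _ c => ∃ r, Combination c r) := by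
      intro hJ k c ⟨A, hA, hc⟩ ⟨r, hr⟩
      obtain ⟨Z, X, h3, h4, h5⟩ := Pool.Agent.X224.SG.upper_many hr
      have h6 : Pool.Agent.X224.HR.graph c ∈ I :=
        hI'.2.1 A hA _ (Pool.Agent.X224.HR.graph_dec (computes_col.1 hc))
      have h7 := Pool.Agent.X224.HR.lev_ideal hI' (aca_iff.1 hJ) h6 h3
      exact ⟨X, hI'.2.1 Z h7 X h5, h4⟩
    have low : HT I (fun _ c => ∃ r, Combination c r) → HT I (fun _ c => Combination c 1) :=
      fun h k c hc hr => h k c hc ⟨1, hr⟩
    have down : HT I (fun _ c => Combination c 1) → ACA I := by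
      intro h A hA S hS
      obtain ⟨c, h1, h2, h3⟩ := Pool.Agent.X224.SG.lower (enum_iff.1 hS)
      obtain ⟨Y, hY, hY2⟩ := h 2 c ⟨A, hA, computes_col.2 h1⟩ h2
      exact hI'.2.1 _ (hI.2.2 A hA Y hY) S
        (h3 (Join A Y) Y Pool.Agent.Y545.HM.dec_left Pool.Agent.Y545.HM.dec_right hY2)
    exact ⟨⟨down, fun h => low (up h)⟩, ⟨fun h => down (low h), up⟩⟩

end Pool.Agent.Results.MP_69fea5_lc.UnshatteredPairs
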