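import Pool.Agent.X224.SG.VcMain

/-!
# Hindman's theorem for colourings of Vapnik-Chervonenkis dimension one

A set `A` of natural numbers has asymptotic Vapnik-Chervonenkis dimension at most one if no two
positive numbers `x` and `y` are shattered by the sufficiently divisible numbers `u`: one of the
four patterns of `(x + u ∈ A, y + u ∈ A)` does not occur.  A computable colouring of dimension one
without computable solution is known.  We show that colourings all of whose colour classes have
dimension at most one, and more generally the combinations of finitely many two-colourings without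
shattered translates, have arithmetical solutions, and that the strength of Hindman's theorem for
these colourings is exactly that of arithmetical comprehension.
-/

set_option autoImplicit false

namespace Pool.Agent.Results.MP_69fea5_lc.VCDimensionOne

open Pool.Agent.Y579.HM Pool.Agent.Y545.HM.St

/-- The asymptotic Vapnik-Chervonenkis dimension of `A` is at most one: for any two positive
numbers `x` and `y`, one of the four patterns of membership of `x + u` and `y + u` in `A` does not
occur for sufficiently divisible `u > 0`. -/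
def DimensionOne (A : Set ℕ) : Prop :=
  ∀ x y : ℕ, 0 < x → 0 < y → ∃ P Q : Bool, ∃ m : ℕ,
    ∀ u, 0 < u → m.factorial ∣ u → ¬ ((x + u ∈ A ↔ P = true) ∧ (y + u ∈ A ↔ Q = true))

/-- The set `A` has no shattered translates: if `x > 0` is sufficiently divisible, and `y > 0` is
sufficiently divisible (depending on `x`), then one of the four patterns of membership of `y + u`
and `x + y + u` in `A` does not occur for sufficiently divisible `u > 0`. -/
def Unshattered (A : Set ℕ) : Prop :=
  ∃ N : ℕ, ∀ x, 0 < x → N.factorial ∣ x → ∃ M : ℕ, ∀ y, 0 < y → M.factorial ∣ y →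
    ∃ P Q : Bool, ∃ m : ℕ, ∀ u, 0 < u → m.factorial ∣ u →
      ¬ ((y + u ∈ A ↔ P = true) ∧ (x + y + u ∈ A ↔ Q = true))

/-- The colouring `c` is a combination of `r` two-colourings without shattered translates: there
are `r` sets of colours such that the sets of numbers with colours in them have no shattered
translates, and such that any two colours are distinguished by one of the `r` sets. -/
def Combination {k : ℕ} (c : ℕ → Fin k) (r : ℕ) : Prop :=
  ∃ S : Fin r → Set (Fin k), (∀ i j, i ≠ j → ∃ l, ¬ (i ∈ S l ↔ j ∈ S l)) ∧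
    ∀ l, Unshattered {n | c n ∈ S l}

/-- The graph of `c`, as a set of codes of pairs of natural numbers. -/
def graph {k : ℕ} (c : ℕ → Fin k) : Set ℕ := {n | (c n.unpair.1 : ℕ) = n.unpair.2}

/-- **Colourings of Vapnik-Chervonenkis dimension one.** -/
theorem result :
    -- the classes of colourings
    (∀ c : ℕ → Fin 2, Pool.Agent.Y579.ST.VCOne c → ∀ i, DimensionOne {n | c n = i}) ∧
    (∀ (k : ℕ) (c : ℕ → Fin k), (∀ i, DimensionOne {n | c n = i}) → Combination c k) ∧
    -- arithmetical solutions
    (∀ (k r : ℕ) (c : ℕ → Fin k), Combination c r →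
      ∃ Z X : Set ℕ, LevN (graph c) (4 ^ (r + 2)) (· ∈ Z) ∧ Solution c X ∧
        Computes Z (char X)) ∧
    -- every set enumerable in `A` is coded by such a colouring computable in `A`
    (∀ A S : Set ℕ, Enum A S → ∃ c : ℕ → Fin 2, Computes A (fun n => Part.some (c n).val) ∧
      (∀ i, DimensionOne {n | c n = i}) ∧
      ∀ Y, Solution c Y → Computes (Join A Y) (char S)) ∧
    -- the strength over `ω`-models is exactly that of arithmetical comprehension
    ∀ I : Set (Set ℕ), Ideal I →
      (HT I (fun k c => k = 2 ∧ ∀ i, DimensionOne {n | c n = i}) ↔ ACA I) ∧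
      (HT I (fun _ c => ∀ i, DimensionOne {n | c n = i}) ↔ ACA I) ∧
      (HT I (fun _ c => ∃ r, Combination c r) ↔ ACA I) := by
  refine ⟨?_, ?_, ?_, ?_, ?_⟩
  · intro c h i
    have h1 := Pool.Agent.X224.SG.dim_of_vc h
    have e : i = 1 ∨ i = 0 := by revert i; decide
    rcases e with rfl | rfl
    · exact h1
    · intro x y hx hy
      obtain ⟨P, Q, m, hm⟩ := h1 x y hx hy
      refine ⟨!P, !Q, m, fun u h2 h3 h4 => hm u h2 h3 ?_⟩
      have e0 : ∀ f : Fin 2, f = 0 ↔ ¬ f = 1 := by decide
      simp only [Set.mem_setOf_eq, e0] at h4 ⊢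
      revert h4
      cases P <;> cases Q <;> simp
  · intro k c h
    exact Pool.Agent.X224.SG.cmb2_of_dim h
  · intro k r c h
    obtain ⟨Z, X, h1, h2, h3⟩ := Pool.Agent.X224.SG.upper2 h
    exact ⟨Z, X, h1, h2, computes_set.2 h3⟩
  · intro A S hS
    obtain ⟨c, h1, h2, h3⟩ := Pool.Agent.X224.SG.lower2 (enum_iff.1 hS)
    refine ⟨c, computes_col.2 h1, h2, fun Y hY => computes_set.2 ?_⟩
    exact h3 (Join A Y) Y Pool.Agent.Y545.HM.dec_left Pool.Agent.Y545.HM.dec_right hY
  · intro I hI
    have hI' := ideal_iff.1 hI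
    have up : ACA I → HT I (fun _ c => ∃ r, Combination c r) := by
      intro hJ k c ⟨A, hA, hc⟩ ⟨r, hr⟩
      obtain ⟨Z, X, h3, h4, h5⟩ := Pool.Agent.X224.SG.upper2 hr
      have h6 : Pool.Agent.X224.HR.graph c ∈ I :=
        hI'.2.1 A hA _ (Pool.Agent.X224.HR.graph_dec (computes_col.1 hc))
      have h7 := Pool.Agent.X224.HR.lev_ideal hI' (aca_iff.1 hJ) h6 h3
      exact ⟨X, hI'.2.1 Z h7 X h5, h4⟩
    have mid : HT I (fun _ c => ∃ r, Combination c r) →
        HT I (fun _ c => ∀ i, DimensionOne {n | c n = i}) :=
      fun h k c hc hr => h k c hc ⟨k, Pool.Agent.X224.SG.cmb2_of_dim hr⟩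
    have low : HT I (fun _ c => ∀ i, DimensionOne {n | c n = i}) →
        HT I (fun k c => k = 2 ∧ ∀ i, DimensionOne {n | c n = i}) :=
      fun h k c hc hr => h k c hc hr.2
    have down : HT I (fun k c => k = 2 ∧ ∀ i, DimensionOne {n | c n = i}) → ACA I := by
      intro h A hA S hS
      obtain ⟨c, h1, h2, h3⟩ := Pool.Agent.X224.SG.lower2 (enum_iff.1 hS)
      obtain ⟨Y, hY, hY2⟩ := h 2 c ⟨A, hA, computes_col.2 h1⟩ ⟨rfl, h2⟩
      exact hI'.2.1 _ (hI.2.2 A hA Y hY) S
        (h3 (Join A Y) Y Pool.Agent.Y545.HM.dec_left Pool.Agent.Y545.HM.dec_right hY2)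
    exact ⟨⟨down, fun h => low (mid (up h))⟩, ⟨fun h => down (low h), fun h => mid (up h)⟩,
      ⟨fun h => down (low (mid h)), up⟩⟩

end Pool.Agent.Results.MP_69fea5_lc.VCDimensionOne
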